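import Pool.Agent.W546.ST.Defs

/-!
# ST-PT (helper636): pointwise matrix algebra
-/

set_option autoImplicit false

open Matrix

namespace Pool.Agent.W636.ST

open Pool.Agent.W546.ST

section det

variable {N : ℕ}

/-- the determinant as a continuous multilinear map of the rows -/
noncomputable def detCM (N : ℕ) :
    ContinuousMultilinearMap ℝ (fun _ : Fin N => Fin N → ℝ) ℝ where
  toMultilinearMap := (Matrix.detRowAlternating (n := Fin N) (R := ℝ)).toMultilinearMap
  cont := by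
    change Continuous (fun M : Matrix (Fin N) (Fin N) ℝ => M.det)
    exact Continuous.matrix_det continuous_id

theorem det_updateRow_sum (A B : Matrix (Fin N) (Fin N) ℝ) :
    ∑ i, (A.updateRow i (B i)).det = (A.adjugate * B).trace := by
  have h1 : ∀ i, (A.updateRow i (B i)).det = ∑ k, A.adjugate k i * B i k := by
    intro i
    rw [← Matrix.cramer_transpose_apply, Matrix.cramer_eq_adjugate_mulVec,
      ← Matrix.adjugate_transpose]
    rfl
  simp_rw [h1]
  rw [Finset.sum_comm]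
  rfl

theorem hasDerivAt_det (R : ℝ → Matrix (Fin N) (Fin N) ℝ) (R' : Matrix (Fin N) (Fin N) ℝ) (t : ℝ)
    (h : ∀ i k, HasDerivAt (fun y => R y i k) (R' i k) t) :
    HasDerivAt (fun y => (R y).det) (((R t).adjugate * R').trace) t := by
  let Rf : ℝ → Fin N → Fin N → ℝ := fun y => R y
  let Rf' : Fin N → Fin N → ℝ := R'
  have h1 : HasDerivAt Rf Rf' t := by
    rw [hasDerivAt_pi]
    intro i
    rw [hasDerivAt_pi]
    intro k
    exact h i k
  have h2 := ((detCM N).hasFDerivAt (Rf t)).comp_hasDerivAt t h1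
  have h3 : (detCM N).linearDeriv (Rf t) Rf' = ((R t).adjugate * R').trace := by
    rw [ContinuousMultilinearMap.linearDeriv_apply, ← det_updateRow_sum]
    rfl
  rw [h3] at h2
  exact h2

end det

section frob

variable {N : ℕ}

theorem trace_mul_transpose (S : Matrix (Fin N) (Fin N) ℝ) :
    (S * Sᵀ).trace = ∑ i, ∑ j, S i j ^ 2 := by
  unfold Matrix.trace
  refine Finset.sum_congr rfl fun i _ => ?_
  rw [Matrix.diag_apply, Matrix.mul_apply]
  refine Finset.sum_congr rfl fun j _ => ?_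
  rw [Matrix.transpose_apply, sq]

theorem trace_sq_le (S : Matrix (Fin N) (Fin N) ℝ) :
    S.trace ^ 2 ≤ N * (S * Sᵀ).trace := by
  have h1 : S.trace ^ 2 ≤ N * ∑ i, S i i ^ 2 := by
    have := sq_sum_le_card_mul_sum_sq (s := (Finset.univ : Finset (Fin N))) (f := fun i => S i i)
    simpa [Matrix.trace] using this
  have h2 : ∑ i, S i i ^ 2 ≤ (S * Sᵀ).trace := by
    rw [trace_mul_transpose]
    refine Finset.sum_le_sum fun i _ => ?_
    exact Finset.single_le_sum (f := fun j => S i j ^ 2) (fun j _ => sq_nonneg _)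
      (Finset.mem_univ i)
  have h3 : (0 : ℝ) ≤ N := Nat.cast_nonneg _
  nlinarith

theorem trace_T2 (T : Matrix (Fin N) (Fin N) ℝ) :
    2 * T.trace ^ 2 ≤ N * ((T * T).trace + (T * Tᵀ).trace) := by
  have h1 := trace_sq_le (T + Tᵀ)
  have h2 : (T + Tᵀ).trace = 2 * T.trace := by
    rw [Matrix.trace_add, Matrix.trace_transpose]; ring
  have h3 : ((T + Tᵀ) * (T + Tᵀ)ᵀ).trace = 2 * ((T * T).trace + (T * Tᵀ).trace) := by
    rw [Matrix.transpose_add, Matrix.transpose_transpose, Matrix.mul_add, Matrix.add_mul,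
      Matrix.add_mul, Matrix.trace_add, Matrix.trace_add, Matrix.trace_add]
    have e1 : (Tᵀ * Tᵀ).trace = (T * T).trace := by
      rw [← Matrix.transpose_mul, Matrix.trace_transpose]
    have e2 : (Tᵀ * T).trace = (T * Tᵀ).trace := Matrix.trace_mul_comm _ _
    rw [e1, e2]; ring
  rw [h2, h3] at h1
  nlinarith

end frob

theorem PT : St_PT := by
  intro n hn P a
  set Y := P.Y a with hY
  set Y' := P.Yd a with hY'
  set J := Y.adjugate with hJ
  set D := Y.det with hD
  have hT : P.T a = J * Y' := rfl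
  have hH : P.H a = Y * Yᵀ := rfl
  have hze : P.ze a = P.s • (J *ᵥ Pi.single 0 1) := rfl
  -- (1)
  have hsum : Y * Yᵀ + Y' * Y'ᵀ = 1 - Matrix.single 0 0 (P.s ^ 2) := by
    have h1 : Y * Yᵀ + Y' * Y'ᵀ = P.A * P.Aᵀ + P.C * P.Cᵀ := by
      have hsc := Real.sin_sq_add_cos_sq a
      rw [hY, hY', PA.Y, PA.Yd]
      simp only [Matrix.transpose_add, Matrix.transpose_smul, Matrix.mul_add, Matrix.add_mul,
        Matrix.smul_mul, Matrix.mul_smul]
      ext i j
      simp only [Matrix.add_apply, Matrix.smul_apply, smul_eq_mul]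
      linear_combination ((P.A * P.Aᵀ) i j + (P.C * P.Cᵀ) i j) * hsc
    rw [h1, eq_sub_iff_add_eq]
    exact P.on
  -- (2)
  have hJY : J * Y = D • (1 : Matrix (Fin (n + 1)) (Fin (n + 1)) ℝ) := Matrix.adjugate_mul Y
  have hadjH : (P.H a).adjugate = Jᵀ * J := by
    rw [hH, Matrix.adjugate_mul_distrib, ← Matrix.adjugate_transpose]
  have htrH : (P.H a).adjugate.trace = (J * Jᵀ).trace := by
    rw [hadjH, Matrix.trace_mul_comm]
  have hdetH : (P.H a).det = D ^ 2 := by
    rw [hH, Matrix.det_mul, Matrix.det_transpose, sq]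
  have hom : P.ze a ⬝ᵥ P.ze a = P.s ^ 2 * ∑ i, J i 0 ^ 2 := by
    rw [hze, smul_dotProduct, dotProduct_smul, smul_eq_mul, smul_eq_mul, Matrix.mulVec_single_one]
    rw [← mul_assoc, ← sq]
    congr 1
    refine Finset.sum_congr rfl fun i _ => ?_
    rw [Matrix.col_apply, sq]
  have hom2 : P.s ^ 2 * ∑ i, J i 0 ^ 2 = P.s ^ 2 * ((P.H a).submatrix Fin.succ Fin.succ).det := by
    congr 1
    have h1 := Matrix.adjugate_fin_succ_eq_det_submatrix (P.H a) 0 0
    rw [hadjH, Matrix.mul_apply] at h1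
    simp only [Fin.val_zero, add_zero, pow_zero, one_mul, Fin.succAbove_zero,
      Matrix.transpose_apply] at h1
    rw [← h1]
    exact Finset.sum_congr rfl fun i _ => sq _
  have hTT : (P.T a * (P.T a)ᵀ).trace = (J * Jᵀ).trace - P.s ^ 2 * ∑ i, J i 0 ^ 2
      - ((n : ℝ) + 1) * D ^ 2 := by
    have h1 : P.T a * (P.T a)ᵀ = J * (Y' * Y'ᵀ) * Jᵀ := by
      rw [hT, Matrix.transpose_mul]
      simp only [Matrix.mul_assoc]
    have h2 : Y' * Y'ᵀ = 1 - Matrix.single 0 0 (P.s ^ 2) - Y * Yᵀ := by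
      rw [← hsum]; abel
    have h3 : J * (Y * Yᵀ) * Jᵀ = (D ^ 2) • (1 : Matrix (Fin (n + 1)) (Fin (n + 1)) ℝ) := by
      have : J * (Y * Yᵀ) * Jᵀ = (J * Y) * (J * Y)ᵀ := by
        rw [Matrix.transpose_mul]
        simp only [Matrix.mul_assoc]
      rw [this, hJY, Matrix.transpose_smul, Matrix.transpose_one, Matrix.smul_mul,
        Matrix.mul_smul, smul_smul, Matrix.one_mul, sq]
    have h4 : (J * Matrix.single 0 0 (P.s ^ 2) * Jᵀ).trace = P.s ^ 2 * ∑ i, J i 0 ^ 2 := by
      rw [Matrix.trace, Finset.mul_sum]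
      refine Finset.sum_congr rfl fun i _ => ?_
      rw [Matrix.diag_apply, Matrix.mul_apply, Finset.sum_eq_single 0]
      · rw [Matrix.mul_single_apply_same, Matrix.transpose_apply]
        ring
      · intro k _ hk
        rw [Matrix.mul_single_apply_of_ne (hbj := hk), zero_mul]
      · intro h
        exact absurd (Finset.mem_univ _) h
    rw [h1, h2, Matrix.mul_sub, Matrix.mul_sub, Matrix.sub_mul, Matrix.sub_mul, Matrix.mul_one,
      h3, Matrix.trace_sub, Matrix.trace_sub, h4, Matrix.trace_smul, Matrix.trace_one,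
      Fintype.card_fin, smul_eq_mul]
    push_cast
    ring
  -- (3)
  have hder : deriv (fun b => (P.Y b).det) a = (P.T a).trace := by
    refine (hasDerivAt_det (fun b => P.Y b) (P.Yd a) a ?_).deriv
    intro i k
    simp only [PA.Y, PA.Yd, Matrix.add_apply, Matrix.smul_apply, smul_eq_mul]
    exact ((Real.hasDerivAt_cos a).mul_const _).add ((Real.hasDerivAt_sin a).mul_const _)
  -- (4)
  have h4 := trace_T2 (P.T a)
  rw [hder, htrH, hdetH]
  have hI : (n : ℝ) * P.I a = n * (2 * n + 3) * D ^ 2 + n * (P.T a * (P.T a)ᵀ).trace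
      + 2 * (n + 1) * n * (P.ze a ⬝ᵥ P.ze a)
      + ((n + 2) * (P.T a * (P.T a)ᵀ).trace - (P.T a * P.T a).trace - (P.T a).trace ^ 2) := by
    have hn0 : (n : ℝ) ≠ 0 := by
      have : n ≠ 0 := by omega
      exact_mod_cast this
    unfold PA.I
    rw [← hY, ← hD]
    field_simp
  rw [hI, hom, hTT]
  rw [hTT] at h4
  rw [mul_assoc (2 * ((n : ℝ) + 1) ^ 2 - 4 * ((n : ℝ) + 1) - 1), ← hom2]
  set om := P.s ^ 2 * ∑ i, J i 0 ^ 2
  have hN : (0 : ℝ) < (n : ℝ) + 1 := by positivity
  push_cast at h4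
  have h5 : 2 / ((n : ℝ) + 1) * (P.T a).trace ^ 2 ≤
      (P.T a * P.T a).trace + ((J * Jᵀ).trace - om - ((n : ℝ) + 1) * D ^ 2) := by
    rw [div_mul_eq_mul_div, div_le_iff₀ hN]
    linarith
  have h6 : ((n : ℝ) + 3) / ((n : ℝ) + 1) = 1 + 2 / ((n : ℝ) + 1) := by
    field_simp
    ring
  rw [h6]
  nlinarith [h5]

end Pool.Agent.W636.ST
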